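import Pool.Agent.H76.SW.T

/-!
Identification of variables by equations.
-/

namespace Pool.Agent.H42.SW

open Pool.Agent.H76.SW

theorem pf_Q0 : U_q0_eq := by
  classical
  intro A Q W I _ _ tr F R g N hN
  have hfin : Finite (Quot R) := Finite.of_surjective (Quot.mk R) Quot.mk_surjective
  have : Fintype (Quot R) := Fintype.ofFinite _
  have hcard : Fintype.card (Quot R) ≤ N :=
    le_trans (Fintype.card_le_of_surjective (Quot.mk R) Quot.mk_surjective) hN
  obtain ⟨j⟩ : Nonempty (Quot R ↪ Fin N) :=
    Function.Embedding.nonempty_of_card_le (by simpa using hcard)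
  have : Nonempty (Quot R) := ⟨Quot.mk R (Classical.arbitrary W)⟩
  let rt : Fin N → Quot R := Function.invFun j
  have hrt : ∀ x, rt (j x) = x := Function.leftInverse_invFun j.injective
  let π : W → Fin N := fun x => j (Quot.mk R x)
  refine ⟨(fun e : (W × Q) × (W × Q) => ((π e.1.1, e.1.2), (π e.2.1, e.2.2))) '' F, π, ?_⟩
  intro V E z
  constructor
  · rintro ⟨μ, h1, h2, h3⟩
    let μb : Quot R → V := Quot.lift μ h2
    refine ⟨fun i => μb (rt i), ?_, ?_⟩
    · rintro _ ⟨e, he, rfl⟩
      have := h1 e he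
      simpa [π, hrt, μb] using this
    · intro i
      have := h3 i
      simpa [π, hrt, μb] using this
  · rintro ⟨μ, h1, h2⟩
    refine ⟨fun x => μ (π x), ?_, ?_, h2⟩
    · intro e he
      exact h1 _ ⟨e, he, rfl⟩
    · intro x y hxy
      show μ (j (Quot.mk R x)) = μ (j (Quot.mk R y))
      rw [Quot.sound hxy]

end Pool.Agent.H42.SW
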